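import Pool.Agent.N802.Fin

/-!
# Simple zeros of Hardy's function at which all small primes have prescribed phases (under RH)

Assume the Riemann hypothesis. For every `ε > 0` there is a `δ > 0` such that for all large `T` and
every choice of angles `θ_p`, at least `T ^ (1 - ε)` of the zeros `t` of `Z` in `(T, 2T]` are simple,
have distance more than `1 / (100 log T)` from all other real zeros of `Z`, and satisfy
`|p ^ (i t) - e ^ (i θ_p)| ≤ ε` for all primes `p ≤ δ log T / log log T` at once.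

The proof: a mean value theorem for the zeros, and a Montgomery-Taylor bound for the pairs of close
zeros, both weighted by `|R|²`, for Dirichlet polynomials `R` of length `T ^ δ` supported on the
integers without prime factors larger than `δ (log T)²`; they are applied to the products of
`((1 + e ^ (i θ_p) p ^ (- i t)) / 2) ^ D`, `D` of the size `log log T`.
-/

open Filter Topology Complex

namespace Pool.Agent.Results.MP_6bc78b_nt.PrescribedPrimePhases

/-- the phase `exp (i ϑ(t))`, with `ϑ(t) = arg Γ(1/4 + i t / 2) - (t / 2) log π` -/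
noncomputable def phase (t : ℝ) : ℂ :=
  Gamma (1 / 4 + I * t / 2) / ‖Gamma (1 / 4 + I * t / 2)‖ * cexp (-(I * (t / 2) * Real.log Real.pi))

/-- Hardy's function `Z(t) = exp (i ϑ(t)) ζ(1/2 + i t)` -/
noncomputable def Z (t : ℝ) : ℂ := phase t * riemannZeta (1 / 2 + I * t)

/-- the zeros `t` of `Z` in `(T, 2T]` that are simple, that have distance more than `d` from all
other real zeros of `Z`, and for which `p ^ (i t)` is within `ε` of `e ^ (i θ_p)` for all primes
`p ≤ y` -/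
def zerosWithPhases (T d y ε : ℝ) (θ : ℕ → ℝ) : Set ℝ :=
  {t : ℝ | T < t ∧ t ≤ 2 * T ∧ Z t = 0 ∧ deriv Z t ≠ 0 ∧
    (∀ u : ℝ, Z u = 0 → u ≠ t → d < |u - t|) ∧
    ∀ p : ℕ, p.Prime → (p : ℝ) ≤ y → ‖(p : ℂ) ^ (I * t) - cexp (I * θ p)‖ ≤ ε}

lemma Z_eq : Z = Pool.Agent.W54.TCF.Z := rfl

lemma norm_phase {p : ℕ} (hp : p.Prime) (t θ : ℝ) :
    ‖(p : ℂ) ^ (I * t) - cexp (I * θ)‖ = ‖cexp (I * θ) * N802.mn p 1 t - 1‖ := by
  have hp0 : (p : ℂ) ≠ 0 := by exact_mod_cast hp.ne_zero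
  have h1 : (p : ℂ) ^ (I * t) = cexp (((t * Real.log p : ℝ) : ℂ) * I) := by
    rw [Complex.cpow_def_of_ne_zero hp0, ← Complex.natCast_log]
    congr 1
    push_cast
    ring
  have h2 : (p : ℂ) ^ (I * t) * N802.mn p 1 t = 1 := by
    rw [h1]
    unfold N802.mn
    rw [← Complex.exp_add, ← Complex.exp_zero]
    congr 1
    rw [Nat.cast_one, Real.log_one]
    push_cast
    ring
  have h3 : ‖(p : ℂ) ^ (I * t)‖ = 1 := by rw [h1, Complex.norm_exp_ofReal_mul_I]
  have h4 : (p : ℂ) ^ (I * t) - cexp (I * θ) =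
      -((p : ℂ) ^ (I * t) * (cexp (I * θ) * N802.mn p 1 t - 1)) := by
    linear_combination cexp (I * θ) * h2
  rw [h4, norm_neg, norm_mul, h3, one_mul]

theorem zerosWithPhases_finite (hRH : RiemannHypothesis) (T d y ε : ℝ) (hT : 0 ≤ T) (θ : ℕ → ℝ) :
    (zerosWithPhases T d y ε θ).Finite := by
  refine (Pool.Agent.W54.TCF.ZZ_finite hRH (2 * T)).subset ?_
  rintro t ⟨h1, h2, h3, -⟩
  exact ⟨hT.trans_lt h1, h2, h3⟩

theorem result (hRH : RiemannHypothesis) : ∀ ε : ℝ, 0 < ε → ∃ δ T₀ : ℝ, 0 < δ ∧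
    ∀ T : ℝ, T₀ ≤ T → ∀ θ : ℕ → ℝ,
      T ^ (1 - ε) ≤ ((zerosWithPhases T (1 / (100 * Real.log T))
        (δ * Real.log T / Real.log (Real.log T)) ε θ).ncard : ℝ) := by
  intro ε hε
  set e := min ε (1 / 2) with he
  have he0 : 0 < e := lt_min hε (by norm_num)
  have he1 : e < 1 := (min_le_right _ _).trans_lt (by norm_num)
  have heε : e ≤ ε := min_le_left _ _
  obtain ⟨δ, T0, hδ, hT0, h⟩ := N802.phase_zeta hRH e he0 he1
  refine ⟨δ, T0, hδ, fun T hT θ => ?_⟩
  obtain ⟨A, hA, hAc⟩ := h T hT θ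
  have hT1 : 1 ≤ T := by linarith
  have hsub : (A : Set ℝ) ⊆ zerosWithPhases T (1 / (100 * Real.log T))
      (δ * Real.log T / Real.log (Real.log T)) ε θ := by
    intro t ht
    obtain ⟨h1, h2, h3, h4, h5, h6⟩ := hA t ht
    refine ⟨h1, h2, h3, h4, h5, fun p hp hpy => ?_⟩
    rw [norm_phase hp]
    exact (h6 p hp hpy).trans heε
  have hcard := Set.ncard_le_ncard hsub (zerosWithPhases_finite hRH T _ _ _ (by linarith) θ)
  rw [Set.ncard_coe_finset] at hcard
  calc T ^ (1 - ε) ≤ T ^ (1 - e) := Real.rpow_le_rpow_of_exponent_le hT1 (by linarith)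
    _ ≤ (A.card : ℝ) := hAc
    _ ≤ _ := by exact_mod_cast hcard

end Pool.Agent.Results.MP_6bc78b_nt.PrescribedPrimePhases
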