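import Pool.Agent.N802.Pc5

/-!
# Montgomery's pair correlation theorem, weighted by an arbitrary smooth resonator (under RH)

Assume the Riemann hypothesis. Let `f` be continuous on `[0, ∞)` with `f(α) = 0` for `α ≥ c`, `c < 1`,
and let `K(u) = 2 ∫₀¹ f(α) cos(2 π u α) dα`. For every `ε > 0` there is a `δ > 0` such that for all large
`T`, all `T ^ (1 - δ) ≤ H ≤ T` and every Dirichlet polynomial `R(t) = ∑ r(k) k ^ (- i t)` over integers
`k ≤ T ^ δ` without prime factors larger than `δ (log T) ²`, the sum of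
`|R(γ)|² K((γ' - γ) log T / 2 π) exp(- (γ' - γ)² / 2)` over all pairs of ordinates `γ, γ'` in
`(T, T + H]` differs from `(f(0) + 2 ∫₀¹ α f(α) dα) (H log T / 2 π) ∑ |r(k)|²` by at most `ε` times
`(H log T / 2 π) ∑ |r(k)|²`. The coefficients are arbitrary and may depend on `T`.
-/

open Filter Topology Complex

namespace Pool.Agent.Results.MP_8958e8_nt.ResonatorPairSums

/-- the nontrivial zeros of zeta with ordinate in `(T₁, T₂]` -/
def zeros (T₁ T₂ : ℝ) : Set ℂ :=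
  {s : ℂ | riemannZeta s = 0 ∧ 0 < s.re ∧ s.re < 1 ∧ T₁ < s.im ∧ s.im ≤ T₂}

/-- the multiplicity of `s` as a zero of zeta -/
noncomputable def mult (s : ℂ) : ℕ := analyticOrderNatAt riemannZeta s

/-- the Dirichlet polynomial `∑_{k ∈ S} r(k) k ^ (- i t)` -/
noncomputable def R (S : Finset ℕ) (r : ℕ → ℂ) (t : ℝ) : ℂ := ∑ k ∈ S, r k * (k : ℂ) ^ (-(I * t))

/-- the elements of `S` lie in `[1, x]` and have no prime factor larger than `y` -/
def IsSmooth (x y : ℝ) (S : Finset ℕ) : Prop :=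
  ∀ k ∈ S, 1 ≤ k ∧ (k : ℝ) ≤ x ∧ ∀ p : ℕ, p.Prime → p ∣ k → (p : ℝ) ≤ y

/-- the kernel `K(u) = 2 ∫₀¹ f(α) cos(2 π u α) dα`, that is, the Fourier transform of the even
function that equals `f` on `[0, 1]` and vanishes outside `[-1, 1]` -/
noncomputable def K (f : ℝ → ℝ) (u : ℝ) : ℝ :=
  2 * ∫ α in (0 : ℝ)..1, f α * Real.cos (2 * Real.pi * u * α)

/-- the sum of `|R(γ)|² K((γ' - γ) log T / 2 π) exp(- (γ' - γ)² / 2)` over all pairs of zeros
`β + i γ`, `β' + i γ'` with ordinates in `(T, X]`, with multiplicities -/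
noncomputable def pairSum (f : ℝ → ℝ) (S : Finset ℕ) (r : ℕ → ℂ) (T X : ℝ) : ℝ :=
  ∑ᶠ s ∈ zeros T X, ∑ᶠ s' ∈ zeros T X, (mult s : ℝ) * (mult s' : ℝ) * ‖R S r s.im‖ ^ 2 *
    (K f ((s'.im - s.im) * Real.log T / (2 * Real.pi)) * Real.exp (-(s'.im - s.im) ^ 2 / 2))

lemma R_eq {x y : ℝ} {S : Finset ℕ} (hS : IsSmooth x y S) (r : ℕ → ℂ) (t : ℝ) :
    R S r t = N802.RP S r t := by
  unfold R N802.RP N802.TP N802.mn
  apply Finset.sum_congr rfl
  intro k hk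
  have hk0 : (k : ℂ) ≠ 0 := by
    have := (hS k hk).1
    exact_mod_cast (by omega : k ≠ 0)
  rw [Complex.cpow_def_of_ne_zero hk0, ← Complex.natCast_log, Nat.cast_one, Real.log_one]
  congr 2
  push_cast
  ring

lemma zeros_eq (T₁ T₂ : ℝ) : zeros T₁ T₂ = H370.zset riemannZeta T₁ T₂ := by
  ext s
  simp only [zeros, H370.zset, Set.mem_ofPred_eq]
  tauto

/-- the sets of zeros are finite -/
theorem zeros_finite (T₁ T₂ : ℝ) (h : 1 ≤ T₁) : (zeros T₁ T₂).Finite := by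
  rw [zeros_eq]
  exact H370.zset_finite H370.good_zeta T₁ T₂ h

/-- sums over zeros are sums over ordinates -/
lemma sum_ord (hRH : RiemannHypothesis) {T₁ T₂ : ℝ} (h : 1 ≤ T₁) (F : ℝ → ℝ) :
    ∑ᶠ s ∈ zeros T₁ T₂, (mult s : ℝ) * F s.im = ∑ g ∈ TC.ordz T₁ T₂, (TC.mu g : ℝ) * F g := by
  rw [zeros_eq, H370.finsum_Zf H370.good_zeta h]
  unfold TC.ordz
  have hS : ∀ s ∈ H370.Zf riemannZeta T₁ T₂, 0 < s.re ∧ s.re < 1 ∧ riemannZeta s = 0 := by
    intro s hs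
    rw [H370.mem_Zf H370.good_zeta h] at hs
    exact ⟨hs.1, hs.2.1, hs.2.2.2.2⟩
  rw [Finset.sum_image]
  · apply Finset.sum_congr rfl
    intro s hs
    obtain ⟨h0, h1, h2⟩ := hS s hs
    unfold TC.mu
    rw [TC.GlobAux.eq_half hRH h0 h1 h2]
    rfl
  · intro s hs s' hs' hh
    obtain ⟨h0, h1, h2⟩ := hS s hs
    obtain ⟨h0', h1', h2'⟩ := hS s' hs'
    rw [← TC.GlobAux.eq_half hRH h0 h1 h2, ← TC.GlobAux.eq_half hRH h0' h1' h2', hh]

lemma pairSum_eq (hRH : RiemannHypothesis) (f : ℝ → ℝ) {x y : ℝ} {S : Finset ℕ}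
    (hS : IsSmooth x y S) (r : ℕ → ℂ) {T X : ℝ} (h : 1 ≤ T) :
    pairSum f S r T X = N802.MA (TC.ordz T X) TC.mu S r
      (N802.PS (TC.ordz T X) TC.mu f (Real.log T)) := by
  unfold pairSum
  have h1 : ∀ s : ℂ, ∑ᶠ s' ∈ zeros T X, (mult s : ℝ) * (mult s' : ℝ) * ‖R S r s.im‖ ^ 2 *
      (K f ((s'.im - s.im) * Real.log T / (2 * Real.pi)) *
        Real.exp (-(s'.im - s.im) ^ 2 / 2)) =
      (mult s : ℝ) * (‖N802.RP S r s.im‖ ^ 2 *
        N802.PS (TC.ordz T X) TC.mu f (Real.log T) s.im) := by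
    intro s
    have h2 := sum_ord hRH h (T₂ := X) (fun g => (mult s : ℝ) * ‖R S r s.im‖ ^ 2 *
      (K f ((g - s.im) * Real.log T / (2 * Real.pi)) * Real.exp (-(g - s.im) ^ 2 / 2)))
    have h3 : ∀ s' : ℂ, (mult s : ℝ) * (mult s' : ℝ) * ‖R S r s.im‖ ^ 2 *
        (K f ((s'.im - s.im) * Real.log T / (2 * Real.pi)) *
          Real.exp (-(s'.im - s.im) ^ 2 / 2)) =
        (mult s' : ℝ) * ((mult s : ℝ) * ‖R S r s.im‖ ^ 2 *
          (K f ((s'.im - s.im) * Real.log T / (2 * Real.pi)) *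
            Real.exp (-(s'.im - s.im) ^ 2 / 2))) := fun s' => by ring
    simp_rw [h3]
    rw [h2]
    unfold N802.PS
    rw [Finset.mul_sum, Finset.mul_sum]
    apply Finset.sum_congr rfl
    intro g _
    rw [R_eq hS]
    have : K f ((g - s.im) * Real.log T / (2 * Real.pi)) =
        N802.ker f ((g - s.im) * Real.log T / (2 * Real.pi)) := rfl
    rw [this]
    ring
  simp_rw [h1]
  exact sum_ord hRH h (fun g => ‖N802.RP S r g‖ ^ 2 *
    N802.PS (TC.ordz T X) TC.mu f (Real.log T) g)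

theorem result (hRH : RiemannHypothesis) : ∀ (f : ℝ → ℝ) (c : ℝ), Continuous f → c < 1 →
    (∀ α : ℝ, c ≤ α → f α = 0) → ∀ ε : ℝ, 0 < ε → ∃ δ T₀ : ℝ, 0 < δ ∧ ∀ T : ℝ, T₀ ≤ T →
    ∀ H : ℝ, T ^ (1 - δ) ≤ H → H ≤ T → ∀ (S : Finset ℕ) (r : ℕ → ℂ),
      IsSmooth (T ^ δ) (δ * (Real.log T) ^ 2) S →
      |pairSum f S r T (T + H) - (f 0 + 2 * ∫ α in (0 : ℝ)..1, α * f α) *
        (H * Real.log T / (2 * Real.pi) * ∑ k ∈ S, ‖r k‖ ^ 2)| ≤
        ε * (H * Real.log T / (2 * Real.pi) * ∑ k ∈ S, ‖r k‖ ^ 2) := by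
  intro f c hf hc hsupp ε hε
  obtain ⟨δ, T0, hδ, hT0, h⟩ := N802.pcr hRH hf hc hsupp hε
  refine ⟨δ, T0, hδ, fun T hT H hH1 hH2 S r hS => ?_⟩
  have h1 := h T hT H hH1 hH2 S r hS
  rw [pairSum_eq hRH f hS r (by linarith)]
  have e : H * Real.log T / (2 * Real.pi) * ∑ k ∈ S, ‖r k‖ ^ 2 =
      H * (Real.log T / (2 * Real.pi) * N802.w1 S r) := by
    unfold N802.w1
    ring
  rw [e]
  exact h1

end Pool.Agent.Results.MP_8958e8_nt.ResonatorPairSums
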