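import Pool.Agent.N802.Share

/-!
# The share of the simple zeros of Hardy's function in the mass of a resonator (under RH)

Assume the Riemann hypothesis. There is a `δ > 0` such that for all large `T`, all intervals
`(T, T + H]` with `T ^ (1 - δ) ≤ H ≤ T`, and every Dirichlet polynomial
`R(t) = ∑ r(k) k ^ (- i t)` over integers `k ≤ T ^ δ` without prime factors larger than
`δ (log T) ²`, at least `0.6724` of the sum of `|R(t)|²` over all zeros `t` of `Z` in `(T, T + H]`,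
counted with multiplicity, comes from zeros that are simple and have distance more than `δ / log T`
from all other zeros of `Z`. The coefficients `r(k)` are arbitrary and may depend on `T`.
-/

open Filter Topology Complex

namespace Pool.Agent.Results.MP_6bc78b_nt.ShareOfResonators

/-- the phase `exp (i ϑ(t))`, with `ϑ(t) = arg Γ(1/4 + i t / 2) - (t / 2) log π` -/
noncomputable def phase (t : ℝ) : ℂ :=
  Gamma (1 / 4 + I * t / 2) / ‖Gamma (1 / 4 + I * t / 2)‖ * cexp (-(I * (t / 2) * Real.log Real.pi))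

/-- Hardy's function `Z(t) = exp (i ϑ(t)) ζ(1/2 + i t)` -/
noncomputable def Z (t : ℝ) : ℂ := phase t * riemannZeta (1 / 2 + I * t)

/-- the multiplicity of a real zero `t` of `Z`: the least `m ≥ 1` such that the `m`-th derivative of
`Z` at `t` is not zero -/
noncomputable def mlt (t : ℝ) : ℕ := sInf {m : ℕ | 1 ≤ m ∧ iteratedDeriv m Z t ≠ 0}

/-- the real zeros of `Z` in `(T₁, T₂]` -/
def zeros (T₁ T₂ : ℝ) : Set ℝ := {t : ℝ | T₁ < t ∧ t ≤ T₂ ∧ Z t = 0}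

/-- the simple real zeros of `Z` in `(T₁, T₂]` that have distance more than `d` from all other real
zeros of `Z` -/
def isolated (T₁ T₂ d : ℝ) : Set ℝ :=
  {t : ℝ | t ∈ zeros T₁ T₂ ∧ deriv Z t ≠ 0 ∧ ∀ u : ℝ, Z u = 0 → u ≠ t → d < |u - t|}

/-- the Dirichlet polynomial `∑_{k ∈ S} r(k) k ^ (- i t)` -/
noncomputable def R (S : Finset ℕ) (r : ℕ → ℂ) (t : ℝ) : ℂ := ∑ k ∈ S, r k * (k : ℂ) ^ (-(I * t))

/-- the elements of `S` lie in `[1, x]` and have no prime factor larger than `y` -/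
def IsSmooth (x y : ℝ) (S : Finset ℕ) : Prop :=
  ∀ k ∈ S, 1 ≤ k ∧ (k : ℝ) ≤ x ∧ ∀ p : ℕ, p.Prime → p ∣ k → (p : ℝ) ≤ y

lemma Z_eq : Z = Pool.Agent.W54.TCF.Z := rfl

lemma mlt_eq : mlt = Pool.Agent.W54.TCF.mlt := rfl

lemma R_eq {x y : ℝ} {S : Finset ℕ} (hS : IsSmooth x y S) (r : ℕ → ℂ) (t : ℝ) :
    R S r t = N802.RP S r t := by
  unfold R N802.RP N802.TP N802.mn
  apply Finset.sum_congr rfl
  intro k hk
  have hk0 : (k : ℂ) ≠ 0 := by
    have := (hS k hk).1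
    exact_mod_cast (by omega : k ≠ 0)
  rw [Complex.cpow_def_of_ne_zero hk0, ← Complex.natCast_log, Nat.cast_one, Real.log_one]
  congr 2
  push_cast
  ring

theorem zeros_finite (hRH : RiemannHypothesis) {T₁ T₂ : ℝ} (h : 0 ≤ T₁) : (zeros T₁ T₂).Finite := by
  refine (Pool.Agent.W54.TCF.ZZ_finite hRH T₂).subset ?_
  rintro t ⟨h1, h2, h3⟩
  exact ⟨h.trans_lt h1, h2, h3⟩

theorem isolated_finite (hRH : RiemannHypothesis) {T₁ T₂ : ℝ} (h : 0 ≤ T₁) (d : ℝ) :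
    (isolated T₁ T₂ d).Finite :=
  (zeros_finite hRH h).subset fun _ ht => ht.1

lemma mu_one {t : ℝ} (ht : 0 < t) (h : Z t = 0) (h1 : deriv Z t ≠ 0) : TC.mu t = 1 := by
  rw [← Pool.Agent.W54.TCF.mlt_eq_mu (T := t) ⟨ht, le_rfl, h⟩, ← mlt_eq]
  unfold mlt
  apply le_antisymm
  · apply Nat.sInf_le
    refine ⟨le_rfl, ?_⟩
    rw [iteratedDeriv_one]
    exact h1
  · have hne : {m : ℕ | 1 ≤ m ∧ iteratedDeriv m Z t ≠ 0}.Nonempty := ⟨1, le_rfl, by
      rw [iteratedDeriv_one]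
      exact h1⟩
    exact (Nat.sInf_mem hne).1

theorem result (hRH : RiemannHypothesis) : ∃ δ T₀ : ℝ, 0 < δ ∧ ∀ T : ℝ, T₀ ≤ T →
    ∀ H : ℝ, T ^ (1 - δ) ≤ H → H ≤ T → ∀ (S : Finset ℕ) (r : ℕ → ℂ),
      IsSmooth (T ^ δ) (δ * (Real.log T) ^ 2) S →
      0.6724 * ∑ᶠ t ∈ zeros T (T + H), (mlt t : ℝ) * ‖R S r t‖ ^ 2 ≤
        ∑ᶠ t ∈ isolated T (T + H) (δ / Real.log T), ‖R S r t‖ ^ 2 ∧
      0.6724 * (H * Real.log T / (2 * Real.pi) * ∑ k ∈ S, ‖r k‖ ^ 2) ≤
        ∑ᶠ t ∈ isolated T (T + H) (δ / Real.log T), ‖R S r t‖ ^ 2 := by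
  obtain ⟨δ, T0, hδ, hT0, h⟩ := N802.share hRH (1 / 10 ^ 6) (by norm_num) (by norm_num)
  refine ⟨δ, T0, hδ, fun T hT H hH1 hH2 S r hS => ?_⟩
  obtain ⟨h1, h2⟩ := h T hT H hH1 hH2 S r hS
  have hT1 : 1 ≤ T := by linarith
  have hT00 : 0 ≤ T := by linarith
  have hpi := Real.pi_pos
  have hw := N802.w1_nonneg S r
  have hℓ : 0 ≤ Real.log T := Real.log_nonneg hT1
  have hH0 : 0 ≤ H := le_trans (by positivity) hH1
  have hL : 0 ≤ H * Real.log T / (2 * Real.pi) * N802.w1 S r := by positivity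
  have e1 : ∑ᶠ t ∈ zeros T (T + H), (mlt t : ℝ) * ‖R S r t‖ ^ 2 =
      N802.MA (TC.ordz T (T + H)) TC.mu S r (fun _ => 1) := by
    rw [finsum_mem_eq_finite_toFinset_sum _ (zeros_finite hRH hT00)]
    unfold N802.MA
    apply Finset.sum_congr
    · ext t
      rw [Set.Finite.mem_toFinset, N802.mem_ordz hRH hT1]
      rfl
    · intro t ht
      obtain ⟨g1, g2, g3⟩ := (N802.mem_ordz hRH hT1).1 ht
      rw [R_eq hS, mlt_eq, Pool.Agent.W54.TCF.mlt_eq_mu (T := t) ⟨by linarith, le_rfl, g3⟩, mul_one]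
  have e2 : ∑ᶠ t ∈ isolated T (T + H) (δ / Real.log T), ‖R S r t‖ ^ 2 =
      N802.MA (N802.iso T (T + H) (δ / Real.log T)) TC.mu S r (fun _ => 1) := by
    classical
    rw [finsum_mem_eq_finite_toFinset_sum _ (isolated_finite hRH hT00 _)]
    unfold N802.MA
    apply Finset.sum_congr
    · ext t
      rw [Set.Finite.mem_toFinset]
      unfold N802.iso
      rw [Finset.mem_filter, N802.mem_ordz hRH hT1]
      constructor
      · rintro ⟨⟨g1, g2, g3⟩, g4, g5⟩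
        exact ⟨⟨g1, g2, g3⟩, mu_one (by linarith) g3 g4, g5⟩
      · rintro ⟨⟨g1, g2, g3⟩, g4, g5⟩
        exact ⟨⟨g1, g2, g3⟩, N802.simple_of_mu (by linarith) g3 g4, g5⟩
    · intro t ht
      unfold N802.iso at ht
      rw [Finset.mem_filter] at ht
      rw [R_eq hS, ht.2.1, mul_one, Nat.cast_one, one_mul]
  rw [e1, e2]
  have e3 : ∑ k ∈ S, ‖r k‖ ^ 2 = N802.w1 S r := rfl
  rw [e3]
  set L := H * Real.log T / (2 * Real.pi) * N802.w1 S r with hLdef
  constructor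
  · refine le_trans ?_ h2
    have h3 := mul_le_mul_of_nonneg_left h1 (show (0 : ℝ) ≤ 0.6724 by norm_num)
    refine h3.trans ?_
    rw [← mul_assoc]
    apply mul_le_mul_of_nonneg_right _ hL
    norm_num
  · refine le_trans ?_ h2
    apply mul_le_mul_of_nonneg_right _ hL
    norm_num

end Pool.Agent.Results.MP_6bc78b_nt.ShareOfResonators
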